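import Pool.Agent.H218.ZW.Zero
import Pool.Agent.TH900.YM.Meas

/-!
# Digits of polynomials in `ζ(9), …, ζ(21)`

A real number is low at the scale `Λ` if its first digits in some base (of its own, up to the scale `Λ`) satisfy a
linear recurrence over `ℚ` of an order which is small compared with the scale. At every scale one of the seven numbers
`z = ζ(9), …, ζ(21)` has the property: there is an irrational algebraic number `ξ` such that `P(ξ)` is rational
for all integer polynomials `P` of degree at most `n` and height at most `exp (δ Λ)` for which `P(z) / D` is low for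
some `D ≤ exp (δ Λ)`; and the exponents `k ≤ n` for which some number `(A z ^ k + B) / D`, `A ≠ 0`, is low are all
divisible by one integer `k₀ ≥ 2`. In particular `z` itself is not low.
-/

set_option autoImplicit false

namespace Pool.Agent.Results.MP_db0fbf_nt.DigitsOfPolynomials

open Pool.Agent.H218.ZW

/-- the odd numbers from `9` to `21` -/
def W : Finset ℕ := {9, 11, 13, 15, 17, 19, 21}

/-- `ζ(j)` -/
noncomputable def zeta (j : ℕ) : ℝ := ∑' n : ℕ, 1 / ((n : ℝ) + 1) ^ j

lemma meas : ∃ c : ℝ, 0 < c ∧ Meas W zeta 1038 c := by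
  obtain ⟨c, hc, h⟩ := Pool.Agent.TH900.YM.measure
  refine ⟨c, hc, fun a q hq => ?_⟩
  obtain ⟨j, hj, h1⟩ := h a q hq
  exact ⟨j, hj, h1⟩

/-- **Digits of polynomials in `ζ(9), …, ζ(21)`.** -/
theorem result : ∀ n : ℕ, 1 ≤ n → ∀ ε : ℝ, 0 < ε → ∃ K δ : ℝ, 0 < K ∧ 0 < δ ∧ ∀ Λ : ℝ,
    ∃ j ∈ W, OneValue n (1 / (7268 * (n : ℝ)) - ε) K δ Λ (zeta j) := by
  intro n hn ε hε
  obtain ⟨c, hc, h⟩ := meas
  have h1 := digits W zeta 1038 (by norm_num) c hc h 7268 (by decide) n hn ε hε
  push_cast at h1
  exact h1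

end Pool.Agent.Results.MP_db0fbf_nt.DigitsOfPolynomials
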