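import Pool.Agent.H218.ZW.Zero
import Pool.Agent.TH900.YM.Meas

/-!
# Near algebraic relations of `ζ(9), …, ζ(21)`

At every height `H` one of the seven numbers `z = ζ(9), …, ζ(21)` has the property: all integer
polynomials `Q` of degree at most `n` and height at most `H` with `|Q(z)| < c H ^ (-(7268 n - 1))` have a common
zero which is irrational. So at this height `z` is close to at most one algebraic number of degree at most `n`
up to conjugation, and this number is not rational.
-/

set_option autoImplicit false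

namespace Pool.Agent.Results.MP_db0fbf_nt.OneIrrationalZero

open Pool.Agent.H218.ZW

/-- the odd numbers from `9` to `21` -/
def W : Finset ℕ := {9, 11, 13, 15, 17, 19, 21}

/-- `ζ(j)` -/
noncomputable def zeta (j : ℕ) : ℝ := ∑' n : ℕ, 1 / ((n : ℝ) + 1) ^ j

lemma meas : ∃ c : ℝ, 0 < c ∧ Meas W zeta 1038 c := by
  obtain ⟨c, hc, h⟩ := Pool.Agent.TH900.YM.measure
  refine ⟨c, hc, fun a q hq => ?_⟩
  obtain ⟨j, hj, h1⟩ := h a q hq
  exact ⟨j, hj, h1⟩

/-- **Near algebraic relations of `ζ(9), …, ζ(21)`.** -/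
theorem result : ∀ n : ℕ, 1 ≤ n → ∃ c : ℝ, 0 < c ∧ ∀ H : ℝ, 1 ≤ H →
    ∃ j ∈ W, OneZero n H (c * H ^ (-(7268 * (n : ℝ) - 1))) (zeta j) := by
  intro n hn
  obtain ⟨c, hc, h⟩ := meas
  have h1 := near W zeta 1038 (by norm_num) c hc h 7268 (by decide) n hn
  push_cast at h1
  exact h1

end Pool.Agent.Results.MP_db0fbf_nt.OneIrrationalZero
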